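import Pool.Agent.R271.Weak
import Pool.Agent.R271.Basic

/-!
# A super Delta-point in the closure of the denting points
-/

open Filter Topology Metric Set
open scoped ENNReal

namespace Pool.Agent.Results.MP_a21db2_an.SuperDeltaDentClosure

section defs
variable {X : Type*} [NormedAddCommGroup X] [NormedSpace ℝ X]

/-- The slice `S(B_X, f, α)`. -/
def slice (f : StrongDual ℝ X) (α : ℝ) : Set X := {y | y ∈ closedBall (0 : X) 1 ∧ ‖f‖ - α < f y}

/-- `x` is a denting point of the closed unit ball. -/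
def IsDenting (x : X) : Prop :=
  x ∈ closedBall (0 : X) 1 ∧ ∀ ε : ℝ, 0 < ε → ∃ (f : StrongDual ℝ X) (α : ℝ), f ≠ 0 ∧ 0 < α ∧
    x ∈ slice f α ∧ diam (slice f α) < ε

/-- `x` is a super Delta-point: `x` is in the unit sphere and `sup_{y ∈ W} ‖x - y‖ = 2` for every
relatively weakly open subset `W` of the unit ball with `x ∈ W`. -/
def IsSuperDelta (x : X) : Prop :=
  ‖x‖ = 1 ∧ ∀ U : Set (WeakSpace ℝ X), IsOpen U → toWeakSpace ℝ X x ∈ U →
    IsLUB ((fun y : X => ‖x - y‖) '' {y | y ∈ closedBall (0 : X) 1 ∧ toWeakSpace ℝ X y ∈ U}) 2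

end defs

/-- The space `ℓ_∞`. -/
abbrev Y : Type := lp (fun _ : ℕ => ℝ) ∞

/-- The space `ℓ_∞ ⊕_1 ℂ`. -/
abbrev Z : Type := WithLp 1 (Y × ℂ)

/-- The constant sequence one. -/
noncomputable def oneY : Y := ⟨fun _ => 1, memℓp_infty ⟨1, by rintro _ ⟨n, rfl⟩; simp⟩⟩

/-- The vector that is divided out. -/
noncomputable def z0 : Z := WithLp.toLp 1 (oneY, -1)

/-- The line spanned by `z0`. -/
noncomputable def L : Submodule ℝ Z := Submodule.span ℝ {z0}

instance : FiniteDimensional ℝ L := FiniteDimensional.span_singleton ℝ z0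

instance : IsClosed (L : Set Z) := L.closed_of_finiteDimensional

/-- The space of the example. -/
def Ex : Type := Z ⧸ L

noncomputable instance : NormedAddCommGroup Ex := inferInstanceAs (NormedAddCommGroup (Z ⧸ L))

noncomputable instance : NormedSpace ℝ Ex := inferInstanceAs (NormedSpace ℝ (Z ⧸ L))

instance : CompleteSpace Ex := inferInstanceAs (CompleteSpace (Z ⧸ L))

/-- The quotient map. -/
noncomputable def pr : Z →ₗ[ℝ] Ex := L.mkQ

lemma norm_pr_le (z : Z) : ‖pr z‖ ≤ ‖z‖ := Submodule.Quotient.norm_mk_le L z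

lemma exists_rep (p : Ex) {ε : ℝ} (hε : 0 < ε) : ∃ z : Z, pr z = p ∧ ‖z‖ < ‖p‖ + ε :=
  Submodule.Quotient.norm_mk_lt (S := L) p hε

lemma norm_Z (z : Z) : ‖z‖ = ‖z.fst‖ + ‖z.snd‖ := WithLp.prod_norm_eq_of_L1 z

lemma pr_z0 : pr z0 = 0 := (Submodule.Quotient.mk_eq_zero L).2 (Submodule.mem_span_singleton_self z0)

/-- Functionals on the quotient. -/
noncomputable def liftF (g : Z →ₗ[ℝ] ℝ) (hg0 : g z0 = 0) (hg : ∀ z, |g z| ≤ ‖z‖) :
    StrongDual ℝ Ex :=
  LinearMap.mkContinuous (L.liftQ g (by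
    rw [L, Submodule.span_le, Set.singleton_subset_iff]; exact hg0) : Ex →ₗ[ℝ] ℝ) 1 (by
    intro p
    rw [one_mul]
    apply le_of_forall_pos_le_add
    intro ε hε
    obtain ⟨z, rfl, hz⟩ := exists_rep p hε
    exact (hg z).trans hz.le)

lemma liftF_pr (g : Z →ₗ[ℝ] ℝ) (hg0 : g z0 = 0) (hg : ∀ z, |g z| ≤ ‖z‖) (z : Z) :
    liftF g hg0 hg (pr z) = g z := rfl

lemma norm_liftF_le (g : Z →ₗ[ℝ] ℝ) (hg0 : g z0 = 0) (hg : ∀ z, |g z| ≤ ‖z‖) :
    ‖liftF g hg0 hg‖ ≤ 1 := LinearMap.mkContinuous_norm_le _ zero_le_one _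

/-- The embedding of `ℓ_∞`. -/
noncomputable def incl : Y →ₗ[ℝ] Ex where
  toFun y := pr (WithLp.toLp 1 (y, 0))
  map_add' a b := by
    rw [← map_add, ← WithLp.toLp_add, Prod.mk_add_mk, add_zero]
  map_smul' c a := by
    rw [RingHom.id_apply, ← map_smul, ← WithLp.toLp_smul, Prod.smul_mk, smul_zero]

lemma norm_one_Y : ‖oneY‖ = 1 := by
  apply le_antisymm
  · apply lp.norm_le_of_forall_le zero_le_one
    intro i
    show ‖(1 : ℝ)‖ ≤ 1
    simp
  · have := lp.norm_apply_le_norm (by simp : (∞ : ℝ≥0∞) ≠ 0) oneY 0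
    simpa [oneY] using this

lemma incl_le (y : Y) : ‖incl y‖ ≤ ‖y‖ := by
  refine (norm_pr_le _).trans ?_
  rw [norm_Z]
  simp

lemma norm_incl (y : Y) : ‖incl y‖ = ‖y‖ := by
  apply le_antisymm (incl_le y)
  apply le_of_forall_pos_le_add
  intro ε hε
  obtain ⟨z, hz, hzn⟩ := exists_rep (incl y) hε
  have h1 : z - WithLp.toLp 1 (y, 0) ∈ L := by
    rw [← Submodule.Quotient.eq]
    exact hz
  obtain ⟨a, ha⟩ := Submodule.mem_span_singleton.1 h1
  have h2 : z = WithLp.toLp 1 (y, 0) + a • z0 := by rw [ha]; abel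
  have h3 : z.fst = y + a • oneY := by rw [h2]; rfl
  have h4 : z.snd = a • (-1 : ℂ) := by
    rw [h2]
    show (0 : ℂ) + a • (-1 : ℂ) = _
    rw [zero_add]
  have h5 : ‖y‖ ≤ ‖z‖ := by
    rw [norm_Z, h3, h4, norm_smul, norm_neg, norm_one, mul_one]
    have h6 := norm_sub_norm_le y (-(a • oneY))
    rw [sub_neg_eq_add, norm_neg, norm_smul, norm_one_Y, mul_one] at h6
    linarith
  linarith

/-- The base point. -/
noncomputable def x0 : Ex := incl oneY

lemma norm_x0 : ‖x0‖ = 1 := by rw [x0, norm_incl, norm_one_Y]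

/-- The unit vectors of `ℓ_∞`. -/
noncomputable def eY (n : ℕ) : Y :=
  ⟨fun m => if m = n then 1 else 0, memℓp_infty ⟨1, by
    rintro _ ⟨m, rfl⟩
    dsimp only
    split_ifs <;> simp⟩⟩

lemma eY_apply (n m : ℕ) : eY n m = if m = n then (1 : ℝ) else 0 := rfl

lemma eY_wuc (F : Finset ℕ) (ε : ℕ → ℝ) (hε : ∀ i, |ε i| ≤ 1) : ‖∑ i ∈ F, ε i • eY i‖ ≤ 1 := by
  apply lp.norm_le_of_forall_le zero_le_one
  intro m
  rw [lp.coeFn_sum, Finset.sum_apply]
  have h1 : ∀ i ∈ F, (ε i • eY i : Y) m = if m = i then ε i else 0 := by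
    intro i _
    rw [lp.coeFn_smul, Pi.smul_apply, eY_apply, smul_eq_mul]
    split_ifs <;> simp
  rw [Finset.sum_congr rfl h1, Finset.sum_ite_eq F m ε]
  split_ifs
  · exact hε m
  · simp

lemma incl_eY_tendsto (f : StrongDual ℝ Ex) :
    Tendsto (fun n => f (incl (eY n))) atTop (𝓝 0) := by
  apply R271.tendsto_zero_of_wuc (C := 1)
  intro F ε hε
  have h1 : ∑ i ∈ F, ε i • incl (eY i) = incl (∑ i ∈ F, ε i • eY i) := by
    rw [map_sum]
    exact Finset.sum_congr rfl fun i _ => (map_smul _ _ _).symm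
  rw [h1, norm_incl]
  exact eY_wuc F ε hε

lemma superDelta_x0 : IsSuperDelta x0 := by
  refine ⟨norm_x0, fun U hU hxU => ?_⟩
  let w : ℕ → Ex := fun n => incl (oneY - (2 : ℝ) • eY n)
  have hw1 : ∀ n, ‖w n‖ ≤ 1 := by
    intro n
    simp only [w]
    rw [norm_incl]
    apply lp.norm_le_of_forall_le zero_le_one
    intro m
    rw [lp.coeFn_sub, Pi.sub_apply, lp.coeFn_smul, Pi.smul_apply, eY_apply, smul_eq_mul]
    show ‖(1 : ℝ) - 2 * (if m = n then (1 : ℝ) else 0)‖ ≤ 1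
    split_ifs <;> norm_num
  have hw2 : ∀ n, ‖x0 - w n‖ = 2 := by
    intro n
    simp only [w, x0]
    rw [← map_sub, sub_sub_cancel, norm_incl, norm_smul]
    have h1 : ‖eY n‖ = 1 := by
      apply le_antisymm
      · have := eY_wuc {n} (fun _ => 1) (fun _ => by simp)
        simpa using this
      · have := lp.norm_apply_le_norm (by simp : (∞ : ℝ≥0∞) ≠ 0) (eY n) n
        rw [eY_apply, if_pos rfl] at this
        simpa using this
    rw [h1]; norm_num
  have hwt : Tendsto (fun n => toWeakSpace ℝ Ex (w n)) atTop (𝓝 (toWeakSpace ℝ Ex x0)) := by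
    rw [R271.tendsto_weak_iff]
    intro f
    have h1 : ∀ n, f (w n) = f x0 - 2 * f (incl (eY n)) := by
      intro n
      simp only [w, x0]
      rw [map_sub, map_smul, map_sub, map_smul, smul_eq_mul]
    simp only [h1]
    have := ((incl_eY_tendsto f).const_mul 2).const_sub (f x0)
    simpa using this
  constructor
  · rintro _ ⟨y, ⟨hy, -⟩, rfl⟩
    have hy' : ‖y‖ ≤ 1 := by simpa using hy
    calc ‖x0 - y‖ ≤ ‖x0‖ + ‖y‖ := norm_sub_le _ _
      _ ≤ 2 := by rw [norm_x0]; linarith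
  · intro c hc
    obtain ⟨n, hn⟩ := (hwt.eventually (hU.mem_nhds hxU)).exists
    have := hc ⟨w n, ⟨by simpa using hw1 n, hn⟩, rfl⟩
    simp only [hw2] at this
    exact this

/-- The points of the arc. -/
noncomputable def arcPt (u : ℂ) : Ex := pr (WithLp.toLp 1 (0, u))

lemma arcPt_one : arcPt 1 = x0 := by
  have h : WithLp.toLp 1 ((oneY, 0) : Y × ℂ) - WithLp.toLp 1 ((0, 1) : Y × ℂ) = z0 := by
    rw [z0, ← WithLp.toLp_sub, Prod.mk_sub_mk, sub_zero, zero_sub]
  have h2 := congrArg pr h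
  rw [map_sub, pr_z0, sub_eq_zero] at h2
  exact h2.symm

/-- The functional exposing `arcPt u`, on `Z`. -/
noncomputable def gu (u : ℂ) : Z →ₗ[ℝ] ℝ where
  toFun z := u.re * z.fst 0 + (u.re * z.snd.re + u.im * z.snd.im)
  map_add' a b := by
    rw [WithLp.add_fst, WithLp.add_snd, lp.coeFn_add, Pi.add_apply, Complex.add_re, Complex.add_im]
    ring
  map_smul' c a := by
    rw [WithLp.smul_fst, WithLp.smul_snd, lp.coeFn_smul, Pi.smul_apply, Complex.smul_re,
      Complex.smul_im, RingHom.id_apply]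
    simp only [smul_eq_mul]
    ring

lemma gu_apply (u : ℂ) (z : Z) :
    gu u z = u.re * z.fst 0 + (u.re * z.snd.re + u.im * z.snd.im) := rfl

lemma gu_z0 (u : ℂ) : gu u z0 = 0 := by
  rw [gu_apply]
  show u.re * 1 + (u.re * (-1 : ℂ).re + u.im * (-1 : ℂ).im) = 0
  simp

lemma inner_le (u v : ℂ) (hu : ‖u‖ = 1) : |u.re * v.re + u.im * v.im| ≤ ‖v‖ := by
  have h1 : u.re * v.re + u.im * v.im = ((starRingEnd ℂ) u * v).re := by simp
  rw [h1]
  refine (Complex.abs_re_le_norm _).trans ?_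
  rw [norm_mul, RCLike.norm_conj, hu, one_mul]

lemma gu_bound (u : ℂ) (hu : ‖u‖ = 1) (z : Z) : |gu u z| ≤ ‖z‖ := by
  rw [gu_apply, norm_Z]
  have h1 : |z.fst 0| ≤ ‖z.fst‖ := lp.norm_apply_le_norm (by simp) z.fst 0
  have h2 : |u.re| ≤ 1 := by rw [← hu]; exact Complex.abs_re_le_norm u
  have h3 := inner_le u z.snd hu
  calc |u.re * z.fst 0 + (u.re * z.snd.re + u.im * z.snd.im)|
      ≤ |u.re * z.fst 0| + |u.re * z.snd.re + u.im * z.snd.im| := abs_add_le _ _
    _ ≤ 1 * ‖z.fst‖ + ‖z.snd‖ := by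
        rw [abs_mul]
        exact add_le_add (mul_le_mul h2 h1 (abs_nonneg _) zero_le_one) h3
    _ = ‖z.fst‖ + ‖z.snd‖ := by rw [one_mul]

lemma norm_arcPt_le (u : ℂ) : ‖arcPt u‖ ≤ ‖u‖ := by
  refine (norm_pr_le _).trans ?_
  rw [norm_Z]
  simp

lemma denting_arcPt (u : ℂ) (hu : ‖u‖ = 1) (hre0 : 0 ≤ u.re) (hre1 : u.re < 1) :
    IsDenting (arcPt u) := by
  set f := liftF (gu u) (gu_z0 u) (gu_bound u hu) with hf
  have hsq : u.re * u.re + u.im * u.im = 1 := by
    have := Complex.normSq_eq_norm_sq u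
    rw [hu, one_pow, Complex.normSq_apply] at this
    exact this
  have hfu : f (arcPt u) = 1 := by
    rw [hf, arcPt, liftF_pr, gu_apply]
    show u.re * 0 + (u.re * u.re + u.im * u.im) = 1
    rw [mul_zero, zero_add, hsq]
  have hball : ‖arcPt u‖ ≤ 1 := (norm_arcPt_le u).trans hu.le
  have hfn : ‖f‖ = 1 := by
    apply le_antisymm (norm_liftF_le _ _ _)
    have h1 := f.le_opNorm (arcPt u)
    rw [hfu, norm_one] at h1
    have h2 : ‖f‖ * ‖arcPt u‖ ≤ ‖f‖ * 1 := mul_le_mul_of_nonneg_left hball (norm_nonneg _)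
    linarith
  refine ⟨by simpa using hball, fun ε hε => ?_⟩
  set K : ℝ := 4 / (1 - u.re) with hK
  have hc : 0 < 1 - u.re := by linarith
  have hK4 : 4 ≤ K := by
    rw [hK, le_div_iff₀ hc]; linarith
  set r : ℝ := min (ε / 8) 1 with hr
  have hr0 : 0 < r := lt_min (by positivity) one_pos
  have hr1 : r ≤ 1 := min_le_right _ _
  have hrε : r ≤ ε / 8 := min_le_left _ _
  set δ : ℝ := r ^ 2 / (3 * K) with hδ
  have hδ0 : 0 < δ := by positivity
  have hKδ : K * δ = r ^ 2 / 3 := by rw [hδ]; field_simp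
  have hδ1 : δ ≤ 1 := by
    have h1 : r ^ 2 ≤ 1 := pow_le_one₀ hr0.le hr1
    have h2 : 4 * δ ≤ K * δ := mul_le_mul_of_nonneg_right hK4 hδ0.le
    linarith
  have hdist : ∀ p ∈ slice f δ, ‖p - arcPt u‖ ≤ 2 * r := by
    rintro p ⟨hpB, hpf⟩
    have hpB' : ‖p‖ ≤ 1 := by simpa using hpB
    obtain ⟨z, rfl, hz⟩ := exists_rep p hδ0
    rw [hfn, hf, liftF_pr, gu_apply] at hpf
    rw [norm_Z] at hz
    have hz' : ‖z.fst‖ + ‖z.snd‖ < 1 + δ := by linarith
    have h1 : |z.fst 0| ≤ ‖z.fst‖ := lp.norm_apply_le_norm (by simp) z.fst 0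
    have h2 := abs_le.1 (inner_le u z.snd hu)
    have h3 : u.re * z.fst 0 ≤ u.re * ‖z.fst‖ :=
      mul_le_mul_of_nonneg_left ((le_abs_self _).trans h1) hre0
    have h4 : (1 - u.re) * ‖z.fst‖ < 2 * δ := by linarith
    have h5 : 2 * ‖z.fst‖ < K * δ := by
      rw [hK, div_mul_eq_mul_div, lt_div_iff₀ hc]
      linarith
    have h6 : u.re * ‖z.fst‖ ≤ ‖z.fst‖ := by
      have := mul_le_mul_of_nonneg_right hre1.le (norm_nonneg z.fst)
      linarith
    have h7 : ‖z.snd - u‖ ^ 2 = ‖z.snd‖ ^ 2 + 1 - 2 * (u.re * z.snd.re + u.im * z.snd.im) := by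
      rw [← Complex.normSq_eq_norm_sq, ← Complex.normSq_eq_norm_sq, Complex.normSq_apply,
        Complex.normSq_apply, Complex.sub_re, Complex.sub_im]
      linarith [hsq]
    have h8 : ‖z.snd‖ ^ 2 ≤ (1 + δ) ^ 2 := by
      apply pow_le_pow_left₀ (norm_nonneg _)
      linarith [norm_nonneg z.fst]
    have h9 : ‖z.snd - u‖ ^ 2 ≤ r ^ 2 := by
      rw [h7]
      have h10 : δ ^ 2 ≤ δ := by rw [sq]; exact mul_le_of_le_one_left hδ0.le hδ1
      have h11 : 4 * δ ≤ K * δ := mul_le_mul_of_nonneg_right hK4 hδ0.le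
      have h15 : (1 + δ) ^ 2 = 1 + 2 * δ + δ ^ 2 := by ring
      linarith
    have h12 : ‖z.snd - u‖ ≤ r := (pow_le_pow_iff_left₀ (norm_nonneg _) hr0.le two_ne_zero).1 h9
    have h13 : ‖z.fst‖ ≤ r := by
      have : r ^ 2 ≤ r := by rw [sq]; exact mul_le_of_le_one_left hr0.le hr1
      linarith
    have h14 : pr z - arcPt u = pr (z - WithLp.toLp 1 (0, u)) := by
      rw [map_sub]; rfl
    rw [h14]
    refine (norm_pr_le _).trans ?_
    rw [norm_Z, WithLp.sub_fst, WithLp.sub_snd]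
    show ‖z.fst - 0‖ + ‖z.snd - u‖ ≤ 2 * r
    rw [sub_zero]
    linarith
  have hf0 : f ≠ 0 := by
    intro h0
    rw [h0, norm_zero] at hfn
    norm_num at hfn
  refine ⟨f, δ, hf0, hδ0, ⟨by simpa using hball, by rw [hfn, hfu]; linarith⟩, ?_⟩
  have hdiam : diam (slice f δ) ≤ 4 * r := by
    apply diam_le_of_forall_dist_le (by positivity)
    intro p hp q hq
    rw [dist_eq_norm]
    have e : p - q = (p - arcPt u) - (q - arcPt u) := by abel
    rw [e]
    refine (norm_sub_le _ _).trans ?_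
    linarith [hdist p hp, hdist q hq]
  linarith

theorem result : ∃ (X : Type) (_ : NormedAddCommGroup X) (_ : NormedSpace ℝ X)
    (_ : CompleteSpace X) (x : X), IsSuperDelta x ∧ x ∈ closure {y : X | IsDenting y} := by
  refine ⟨Ex, inferInstance, inferInstance, inferInstance, x0, superDelta_x0, ?_⟩
  rw [Metric.mem_closure_iff]
  intro ε hε
  have hcont : Tendsto (fun θ : ℝ => Complex.exp (θ * Complex.I)) (𝓝 0) (𝓝 1) := by
    have : Continuous (fun θ : ℝ => Complex.exp (θ * Complex.I)) := by fun_prop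
    have h := this.tendsto 0
    simpa using h
  rw [Metric.tendsto_nhds_nhds] at hcont
  obtain ⟨δ, hδ, hd⟩ := hcont ε hε
  set θ : ℝ := min (δ / 2) 1 with hθ
  have hθ0 : 0 < θ := lt_min (by positivity) one_pos
  have hθ1 : θ ≤ 1 := min_le_right _ _
  have hθδ : θ ≤ δ / 2 := min_le_left _ _
  set u : ℂ := Complex.exp (θ * Complex.I) with hu
  have hun : ‖u‖ = 1 := Complex.norm_exp_ofReal_mul_I θ
  have hre : u.re = Real.cos θ := by
    rw [hu, Complex.exp_ofReal_mul_I_re]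
  have hdu : dist u 1 < ε := hd (by
    rw [dist_zero_right, Real.norm_of_nonneg hθ0.le]
    linarith)
  refine ⟨arcPt u, denting_arcPt u hun ?_ ?_, ?_⟩
  · rw [hre]
    apply Real.cos_nonneg_of_neg_pi_div_two_le_of_le <;> linarith [Real.pi_gt_three]
  · rw [hre, ← Real.cos_zero]
    exact Real.cos_lt_cos_of_nonneg_of_le_pi_div_two le_rfl
      (by linarith [Real.pi_gt_three]) hθ0
  · rw [← arcPt_one, dist_eq_norm]
    have h1 : arcPt 1 - arcPt u = arcPt (1 - u) := by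
      rw [arcPt, arcPt, arcPt, ← map_sub, ← WithLp.toLp_sub, Prod.mk_sub_mk, sub_zero]
    rw [h1]
    refine (norm_arcPt_le _).trans_lt ?_
    rw [← dist_eq_norm, dist_comm]
    exact hdu

end Pool.Agent.Results.MP_a21db2_an.SuperDeltaDentClosure
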